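import Pool.Agent.H86.IR.Targets2

/-!
# A small radius (C1)
-/

set_option autoImplicit false

open Topology Filter

namespace Pool.Agent.H86.IR

theorem c1 (hEIB : T_EIB) : T_C1 := by
  intro n hn hPB x γ hEI hL m hm hγ
  obtain ⟨-, h2, -, -⟩ := hEIB n x γ hEI
  obtain ⟨hE, hsum⟩ := h2 m hm
  obtain ⟨hmono, -⟩ := hEI
  have hlen : skip m x (n - 1 - 1) - skip m x 0 ≤ 2 := by
    have h1 : skip m x (n - 1 - 1) ≤ x (n - 1) := by
      unfold skip
      split_ifs with h
      · exact (hmono _ _ (by omega) (by omega)).le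
      · rw [show n - 1 - 1 + 1 = n - 1 by omega]
    have h3 : x 0 ≤ skip m x 0 := by
      unfold skip
      split_ifs with h
      · exact le_rfl
      · exact (hmono _ _ (by omega) (by omega)).le
    linarith
  have key := hPB _ _ hE hlen
  rw [hsum] at key
  have hn' : (3 : ℝ) ≤ n := by exact_mod_cast hn
  have hc : ((n - 1 : ℕ) : ℝ) = n - 1 := by
    rw [Nat.cast_sub (by omega)]
    simp
  rw [hc] at key
  have hpi := Real.pi_pos
  have e1 : Real.log (4 / (Real.pi * (n - 1))) = Real.log (4 / (Real.pi * n)) +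
      Real.log (n / (n - 1)) := by
    rw [← Real.log_mul (by positivity) (div_ne_zero (by positivity) (by linarith))]
    congr 1
    have : (n : ℝ) - 1 ≠ 0 := by linarith
    field_simp
  have e2 : ((n : ℝ) - 1) * Real.log (n / (n - 1)) ≤ 1 := by
    have hpos : (0 : ℝ) < n - 1 := by linarith
    have := Real.log_le_sub_one_of_pos (show (0 : ℝ) < n / (n - 1) by positivity)
    calc ((n : ℝ) - 1) * Real.log (n / (n - 1)) ≤ (n - 1) * (n / (n - 1) - 1) :=
          mul_le_mul_of_nonneg_left this hpos.le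
      _ = 1 := by field_simp; ring
  rw [e1] at key
  have e3 : ((n : ℝ) - 1) * (Real.log (4 / (Real.pi * n)) + Real.log (n / (n - 1))) =
      (n - 1) * Real.log (4 / (Real.pi * n)) + (n - 1) * Real.log (n / (n - 1)) := by ring
  have e4 : (n : ℝ) * Real.log (4 / (Real.pi * n)) = (n - 1) * Real.log (4 / (Real.pi * n)) +
      Real.log (4 / (Real.pi * n)) := by ring
  rw [e4]
  linarith

end Pool.Agent.H86.IR
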