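import Pool.Agent.H86.IR.Targets1

/-!
# The energy inequality on the sphere (ES)
-/

set_option autoImplicit false

open Complex Topology Filter InnerProductSpace
open scoped OnePoint

namespace Pool.Agent.H86.IR

theorem es (hEN : T_EN) (hEP : T_EP) (hMOB : T_MOB) : T_ES := by
  intro n B a r hn hop hdis hmem hr α hα
  obtain ⟨p, hp⟩ := hEP n B a hn hop hdis hmem
  choose hr0 g hg hlim using hr
  have hPG := fun k => hMOB (B k) (a k) p (g k) (Real.log (r k)) (hop k) (hmem k) (hp k) (hg k)
    (hlim k)
  have hap : ∀ k, a k - p ≠ 0 := by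
    intro k h
    rw [sub_eq_zero] at h
    exact hp k (h ▸ hmem k)
  have haa : ∀ k j, k ≠ j → a k - a j ≠ 0 := by
    intro k j hkj h
    rw [sub_eq_zero] at h
    have h1 := hmem j
    rw [← h] at h1
    exact Set.disjoint_left.1 (hdis hkj) (hmem k) h1
  have hdisD : Pairwise fun j k => Disjoint {w : ℂ | mob p w ∈ B j} {w : ℂ | mob p w ∈ B k} := by
    intro j k hjk
    rw [Set.disjoint_left]
    intro w hw hw'
    exact Set.disjoint_left.1 (hdis hjk) hw hw'
  have key := hEN n _ _ _ _ hPG hdisD α hα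
  set l : Fin n → ℝ := fun k => Real.log ‖a k - p‖ with hl
  have hlog : ∀ k j, α k * α j * Real.log ‖(a k - p)⁻¹ - (a j - p)⁻¹‖ =
      α k * α j * Real.log ‖a k - a j‖ - (α k * α j * (l k + l j)) +
        (if k = j then α k * α j * (l k + l j) else 0) := by
    intro k j
    by_cases hkj : k = j
    · subst hkj
      simp
    · rw [if_neg hkj]
      have h1 : (a k - p)⁻¹ - (a j - p)⁻¹ = (a j - a k) / ((a k - p) * (a j - p)) := by
        field_simp [hap k, hap j]
        ring
      rw [h1, norm_div, norm_mul, Real.log_div (norm_ne_zero_iff.2 (haa j k (Ne.symm hkj)))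
        (mul_ne_zero (norm_ne_zero_iff.2 (hap k)) (norm_ne_zero_iff.2 (hap j))),
        Real.log_mul (norm_ne_zero_iff.2 (hap k)) (norm_ne_zero_iff.2 (hap j)),
        norm_sub_rev (a j) (a k)]
      simp only [hl]
      ring
  have e2 : ∑ k, ∑ j, α k * α j * (l k + l j) = 0 := by
    have : ∀ k, ∑ j, α k * α j * (l k + l j) = α k * l k * ∑ j, α j + α k * ∑ j, α j * l j := by
      intro k
      rw [Finset.mul_sum, Finset.mul_sum, ← Finset.sum_add_distrib]
      exact Finset.sum_congr rfl fun j _ => by ring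
    rw [Finset.sum_congr rfl fun k _ => this k, Finset.sum_add_distrib, hα]
    simp only [mul_zero, Finset.sum_const_zero, zero_add]
    rw [← Finset.sum_mul, hα, zero_mul]
  have e3 : ∑ k, ∑ j, (if k = j then α k * α j * (l k + l j) else 0) =
      ∑ k, α k ^ 2 * (2 * l k) := by
    refine Finset.sum_congr rfl fun k _ => ?_
    rw [Finset.sum_ite_eq Finset.univ k, if_pos (Finset.mem_univ k)]
    ring
  have e4 : ∑ k, α k ^ 2 * (Real.log (r k) - 2 * Real.log ‖a k - p‖) =
      ∑ k, α k ^ 2 * Real.log (r k) - ∑ k, α k ^ 2 * (2 * l k) := by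
    rw [← Finset.sum_sub_distrib]
    exact Finset.sum_congr rfl fun k _ => by simp only [hl]; ring
  rw [e4] at key
  simp only [hlog, Finset.sum_add_distrib, Finset.sum_sub_distrib] at key
  rw [e2, e3] at key
  linarith

end Pool.Agent.H86.IR
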