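import Pool.Agent.H86.IR.Targets1
import Pool.Agent.H20.LIM.All

/-!
# The fundamental solution (FS)
-/

namespace Pool.Agent.H86.IR

theorem fs : T_FS := Pool.Agent.H20.LIM.All.fun_

end Pool.Agent.H86.IR
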