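import Pool.Agent.H86.IR.Targets3

/-!
# The configuration with strips and two half-planes (LO2)
-/

set_option autoImplicit false

open Complex Topology Filter InnerProductSpace
open scoped OnePoint

namespace Pool.Agent.H86.IR

/-- the pieces -/
def lS (n k : ℕ) : Set ℂ := {z | (0 < k → -1 + 2 * (k : ℝ) / n < z.re) ∧
  (k + 1 < n → z.re < -1 + 2 * ((k : ℝ) + 1) / n)}

/-- the poles -/
noncomputable def lA (n k : ℕ) : ℝ := if k = 0 then -1 else if k + 1 = n then 1 else
  -1 + (2 * (k : ℝ) + 1) / n

/-- the radii -/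
noncomputable def lR (n k : ℕ) : ℝ := if k = 0 ∨ k + 1 = n then 4 / n else 4 / (Real.pi * n)

theorem lS_open (n k : ℕ) : IsOpen (lS n k) := by
  have e : lS n k = {z : ℂ | 0 < k → -1 + 2 * (k : ℝ) / n < z.re} ∩
      {z : ℂ | k + 1 < n → z.re < -1 + 2 * ((k : ℝ) + 1) / n} := rfl
  rw [e]
  refine IsOpen.inter ?_ ?_
  · by_cases h : 0 < k
    · simp only [h, true_imp_iff]
      exact isOpen_lt continuous_const Complex.continuous_re
    · simp [h]
  · by_cases h : k + 1 < n
    · simp only [h, true_imp_iff]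
      exact isOpen_lt Complex.continuous_re continuous_const
    · simp [h]

theorem lS_convex (n k : ℕ) : Convex ℝ (lS n k) := by
  have e : lS n k = {z : ℂ | 0 < k → -1 + 2 * (k : ℝ) / n < z.re} ∩
      {z : ℂ | k + 1 < n → z.re < -1 + 2 * ((k : ℝ) + 1) / n} := rfl
  rw [e]
  refine Convex.inter ?_ ?_
  · by_cases h : 0 < k
    · simp only [h, true_imp_iff]
      exact convex_halfSpace_re_gt _
    · simp [h, convex_univ]
  · by_cases h : k + 1 < n
    · simp only [h, true_imp_iff]
      exact convex_halfSpace_re_lt _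
    · simp [h, convex_univ]

theorem lA_mem {n k : ℕ} (hn : 2 ≤ n) (_hk : k < n) : ((lA n k : ℝ) : ℂ) ∈ lS n k := by
  have hn' : (2 : ℝ) ≤ n := by exact_mod_cast hn
  have hn0 : (0 : ℝ) < n := by linarith
  constructor
  · intro h0
    rw [Complex.ofReal_re]
    unfold lA
    rw [if_neg (by omega)]
    split_ifs with h
    · have : (n : ℝ) = k + 1 := by rw [← h]; push_cast; ring
      have h2 : 2 * (k : ℝ) / n < 2 := by
        rw [div_lt_iff₀ hn0, this]
        linarith
      linarith
    · have : 2 * (k : ℝ) / n < (2 * (k : ℝ) + 1) / n := by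
        apply div_lt_div_of_pos_right _ hn0
        linarith
      linarith
  · intro h1
    rw [Complex.ofReal_re]
    unfold lA
    split_ifs with h h'
    · have : 0 < 2 * ((k : ℝ) + 1) / n := by positivity
      linarith
    · omega
    · have : (2 * (k : ℝ) + 1) / n < 2 * ((k : ℝ) + 1) / n := by
        apply div_lt_div_of_pos_right _ hn0
        linarith
      linarith

theorem lA_seg {n k : ℕ} (hn : 2 ≤ n) (hk : k < n) : |lA n k| ≤ 1 := by
  have hn' : (2 : ℝ) ≤ n := by exact_mod_cast hn
  have hn0 : (0 : ℝ) < n := by linarith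
  unfold lA
  split_ifs with h h'
  · simp
  · simp
  · have h1 : 0 ≤ (2 * (k : ℝ) + 1) / n := by positivity
    have h2 : (2 * (k : ℝ) + 1) / n ≤ 2 := by
      rw [div_le_iff₀ hn0]
      have : (k : ℝ) + 1 ≤ n := by exact_mod_cast hk
      linarith
    rw [abs_le]
    constructor <;> linarith

theorem lS_ir (hHPL : T_HPL) (hSTR : T_STR) {n k : ℕ} (hn : 2 ≤ n) (hk : k < n) :
    HasIR (fin (lS n k)) ((lA n k : ℝ) : ℂ) (lR n k) := by
  have hn' : (2 : ℝ) ≤ n := by exact_mod_cast hn
  have hn0 : (0 : ℝ) < n := by linarith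
  by_cases h0 : k = 0
  · subst h0
    have e : lS n 0 = {z : ℂ | z.re < -1 + 2 / n} := by
      ext z
      simp only [lS, Set.mem_ofPred_eq, lt_irrefl, false_imp_iff, true_and, Nat.cast_zero, zero_add,
        mul_one]
      constructor
      · intro h
        exact h (by omega)
      · intro h _
        exact h
    rw [e]
    unfold lA lR
    rw [if_pos rfl, if_pos (Or.inl rfl)]
    have h2 : (0 : ℝ) < 2 / n := by positivity
    have := (hHPL (-1) (-1 + 2 / n)).1 (by linarith)
    rwa [show 2 * (-1 + 2 / (n : ℝ) - -1) = 4 / n by ring] at this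
  · by_cases h1 : k + 1 = n
    · have hkn : (k : ℝ) = n - 1 := by rw [← h1]; push_cast; ring
      have e : lS n k = {z : ℂ | 1 - 2 / n < z.re} := by
        ext z
        simp only [lS, Set.mem_ofPred_eq, h1, lt_irrefl, false_imp_iff, and_true]
        have : -1 + 2 * (k : ℝ) / n = 1 - 2 / n := by
          rw [hkn]
          field_simp
          ring
        rw [this]
        constructor
        · intro h
          exact h (by omega)
        · intro h _
          exact h
      rw [e]
      unfold lA lR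
      rw [if_neg h0, if_pos h1, if_pos (Or.inr h1)]
      have h2 : (0 : ℝ) < 2 / n := by positivity
      have := (hHPL 1 (1 - 2 / n)).2 (by linarith)
      rwa [show 2 * (1 - (1 - 2 / (n : ℝ))) = 4 / n by ring] at this
    · have e : lS n k = {z : ℂ | |z.re - (-1 + (2 * (k : ℝ) + 1) / n)| < 1 / n} := by
        ext z
        simp only [lS, Set.mem_ofPred_eq, abs_lt]
        have e1 : (2 * (k : ℝ) + 1) / n = 2 * k / n + 1 / n := by rw [add_div]
        have e2 : 2 * ((k : ℝ) + 1) / n = 2 * k / n + 2 * (1 / n) := by ring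
        rw [e1, e2]
        constructor
        · rintro ⟨h2, h3⟩
          have := h2 (by omega)
          have := h3 (by omega)
          constructor <;> linarith
        · rintro ⟨h2, h3⟩
          constructor
          · intro _
            linarith
          · intro _
            linarith
      rw [e]
      unfold lA lR
      rw [if_neg h0, if_neg h1, if_neg (by tauto)]
      have := hSTR (-1 + (2 * (k : ℝ) + 1) / n) (1 / n) (by positivity)
      rwa [show 4 * (1 / (n : ℝ)) / Real.pi = 4 / (Real.pi * n) by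
        have := Real.pi_pos
        field_simp] at this

theorem lR_prod {n : ℕ} (hn : 2 ≤ n) :
    ∏ k : Fin n, lR n k = Real.pi ^ 2 * (4 / (Real.pi * n)) ^ n := by
  have hn' : (2 : ℝ) ≤ n := by exact_mod_cast hn
  have hpi := Real.pi_pos
  rw [Fin.prod_univ_eq_prod_range (fun k => lR n k) n]
  obtain ⟨m, rfl⟩ : ∃ m, n = m + 2 := ⟨n - 2, by omega⟩
  rw [Finset.prod_range_succ, Finset.prod_range_succ']
  have h1 : ∀ k ∈ Finset.range m, lR (m + 2) (k + 1) = 4 / (Real.pi * ((m + 2 : ℕ) : ℝ)) := by
    intro k hk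
    rw [Finset.mem_range] at hk
    unfold lR
    rw [if_neg (by omega)]
  rw [Finset.prod_congr rfl h1, Finset.prod_const, Finset.card_range]
  have h2 : lR (m + 2) 0 = 4 / ((m + 2 : ℕ) : ℝ) := by
    unfold lR
    rw [if_pos (Or.inl rfl)]
  have h3 : lR (m + 2) (m + 1) = 4 / ((m + 2 : ℕ) : ℝ) := by
    unfold lR
    rw [if_pos (Or.inr rfl)]
  rw [h2, h3, pow_add]
  have : ((m + 2 : ℕ) : ℝ) ≠ 0 := by positivity
  field_simp

theorem lo2 (hHPL : T_HPL) (hSTR : T_STR) : T_LO2 := by
  intro n hn
  refine ⟨fun k => fin (lS n k), fun k => ((lA n k : ℝ) : ℂ), fun k => lR n k, ?_, ?_, ?_⟩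
  · refine ⟨fun k => ⟨?_, ?_⟩, ?_, fun k => ?_, fun k => ?_⟩
    · exact OnePoint.isOpenEmbedding_coe.isOpenMap _ (lS_open n k)
    · refine ⟨⟨_, ((lA n k : ℝ) : ℂ), lA_mem hn k.2, rfl⟩, ?_⟩
      exact (lS_convex n k).isPreconnected.image _ OnePoint.continuous_coe.continuousOn
    · have key : ∀ j k : Fin n, (j : ℕ) < k → Disjoint (fin (lS n j)) (fin (lS n k)) := by
        intro j k hjk
        rw [Set.disjoint_left]
        rintro _ ⟨z, hz, rfl⟩ ⟨w, hw, hzw⟩
        have : w = z := OnePoint.coe_injective hzw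
        subst this
        have h1 := hz.2 (by omega)
        have h2 := hw.1 (by omega)
        have h3 : 2 * (((j : ℕ) : ℝ) + 1) / n ≤ 2 * ((k : ℕ) : ℝ) / n := by
          have hn0 : (0 : ℝ) < n := by
            have : (2 : ℝ) ≤ n := by exact_mod_cast hn
            linarith
          apply div_le_div_of_nonneg_right _ hn0.le
          have : ((j : ℕ) : ℝ) + 1 ≤ ((k : ℕ) : ℝ) := by exact_mod_cast hjk
          linarith
        linarith
      intro j k hjk
      rcases lt_or_gt_of_ne (fun h => hjk (Fin.ext h) : (j : ℕ) ≠ k) with h | h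
      · exact key j k h
      · exact (key k j h).symm
    · exact ⟨_, lA_mem hn k.2, rfl⟩
    · refine ⟨Complex.ofReal_im _, ?_⟩
      rw [Complex.ofReal_re]
      exact lA_seg hn k.2
  · intro k
    exact lS_ir hHPL hSTR hn k.2
  · exact (lR_prod hn).symm

end Pool.Agent.H86.IR
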