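import Pool.Agent.H86.IR.Targets2

/-!
# The logarithmic kernel (PHI)
-/

set_option autoImplicit false

open Topology Filter

namespace Pool.Agent.H86.IR

theorem phi_deriv (s : Finset ℕ) (x α : ℕ → ℝ) {l : ℝ} (h : ∀ k ∈ s, ∀ j ∈ s, 0 < x k + x j + l) :
    HasDerivAt (fun l => ∑ k ∈ s, ∑ j ∈ s, α k * α j * Real.log (x k + x j + l))
      (∑ k ∈ s, ∑ j ∈ s, α k * α j / (x k + x j + l)) l := by
  apply HasDerivAt.fun_sum
  intro k hk
  apply HasDerivAt.fun_sum
  intro j hj
  have h1 : HasDerivAt (fun l : ℝ => x k + x j + l) 1 l := by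
    simpa using (hasDerivAt_id l).const_add (x k + x j)
  have h2 := (h1.log (h k hk j hj).ne').const_mul (α k * α j)
  rw [mul_one_div] at h2
  exact h2

theorem phi_nonneg (hPSD : T_PSD) (s : Finset ℕ) (x α : ℕ → ℝ) {l : ℝ}
    (h : ∀ k ∈ s, 0 < x k + l / 2) :
    0 ≤ ∑ k ∈ s, ∑ j ∈ s, α k * α j / (x k + x j + l) := by
  have := hPSD s (fun k => x k + l / 2) α h
  refine this.trans_eq ?_
  refine Finset.sum_congr rfl fun k _ => Finset.sum_congr rfl fun j _ => ?_
  congr 1
  ring

theorem phi (hPSD : T_PSD) : T_PHI := by
  refine ⟨?_, ?_⟩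
  · intro s x α l hx hl
    have hmono : MonotoneOn
        (fun l => ∑ k ∈ s, ∑ j ∈ s, α k * α j * Real.log (x k + x j + l)) (Set.Ici 0) := by
      have hd : ∀ l ∈ Set.Ici (0 : ℝ), HasDerivAt
          (fun l => ∑ k ∈ s, ∑ j ∈ s, α k * α j * Real.log (x k + x j + l))
          (∑ k ∈ s, ∑ j ∈ s, α k * α j / (x k + x j + l)) l := by
        intro l hl
        rw [Set.mem_Ici] at hl
        exact phi_deriv s x α fun k hk j hj => by
          have := hx k hk
          have := hx j hj
          linarith
      apply monotoneOn_of_deriv_nonneg (convex_Ici 0)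
      · intro l hl
        exact (hd l hl).continuousAt.continuousWithinAt
      · intro l hl
        rw [interior_Ici] at hl
        exact (hd l (Set.Ioi_subset_Ici_self hl)).differentiableAt.differentiableWithinAt
      · intro l hl
        rw [interior_Ici] at hl
        rw [(hd l (Set.Ioi_subset_Ici_self hl)).deriv]
        exact phi_nonneg hPSD s x α fun k hk => by
          have := hx k hk
          have : 0 < l := hl
          linarith
    have := hmono (Set.mem_Ici.2 le_rfl) (Set.mem_Ici.2 hl) hl
    simpa using this
  · intro s x α l hx hl hα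
    have hd : ∀ l ∈ Set.Ioi (0 : ℝ), HasDerivAt
        (fun l => ∑ k ∈ s, ∑ j ∈ s, α k * α j * Real.log (x k + x j + l))
        (∑ k ∈ s, ∑ j ∈ s, α k * α j / (x k + x j + l)) l := by
      intro l hl
      have : 0 < l := hl
      exact phi_deriv s x α fun k hk j hj => by
        have := hx k hk
        have := hx j hj
        linarith
    have hmono : MonotoneOn
        (fun l => ∑ k ∈ s, ∑ j ∈ s, α k * α j * Real.log (x k + x j + l)) (Set.Ioi 0) := by
      apply monotoneOn_of_deriv_nonneg (convex_Ioi 0)
      · intro l hl
        exact (hd l hl).continuousAt.continuousWithinAt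
      · intro l hl
        rw [interior_Ioi] at hl
        exact (hd l hl).differentiableAt.differentiableWithinAt
      · intro l hl
        rw [interior_Ioi] at hl
        rw [(hd l hl).deriv]
        exact phi_nonneg hPSD s x α fun k hk => by
          have := hx k hk
          have : 0 < l := hl
          linarith
    have hlim : Tendsto (fun l => ∑ k ∈ s, ∑ j ∈ s, α k * α j * Real.log (x k + x j + l))
        atTop (𝓝 0) := by
      have h1 : Tendsto (fun l => ∑ k ∈ s, ∑ j ∈ s, α k * α j *
          Real.log (1 + (x k + x j) / l)) atTop (𝓝 (∑ k ∈ s, ∑ j ∈ s, α k * α j * 0)) := by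
        refine tendsto_finsetSum _ fun k _ => tendsto_finsetSum _ fun j _ => ?_
        refine Tendsto.const_mul _ ?_
        have h2 : Tendsto (fun l : ℝ => 1 + (x k + x j) / l) atTop (𝓝 (1 + 0)) :=
          tendsto_const_nhds.add (tendsto_const_nhds.div_atTop tendsto_id)
        rw [add_zero] at h2
        have h3 := (Real.continuousAt_log one_ne_zero).tendsto.comp h2
        rw [Real.log_one] at h3
        exact h3
      simp only [mul_zero, Finset.sum_const_zero] at h1
      refine h1.congr' ?_
      filter_upwards [eventually_gt_atTop 0] with l hl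
      have e1 : ∀ k ∈ s, ∀ j ∈ s, α k * α j * Real.log (x k + x j + l) =
          α k * α j * Real.log (1 + (x k + x j) / l) + α k * (α j * Real.log l) := by
        intro k hk j hj
        have h1 := hx k hk
        have h2 := hx j hj
        have h3 : x k + x j + l = (1 + (x k + x j) / l) * l := by
          field_simp
          ring
        rw [h3, Real.log_mul (by positivity) hl.ne']
        ring
      symm
      rw [Finset.sum_congr rfl fun k hk => Finset.sum_congr rfl fun j hj => e1 k hk j hj]
      simp only [Finset.sum_add_distrib]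
      rw [show ∑ k ∈ s, ∑ j ∈ s, α k * (α j * Real.log l) = 0 by
        simp only [← Finset.mul_sum]
        rw [← Finset.sum_mul, hα, zero_mul], add_zero]
    refine ge_of_tendsto hlim ?_
    filter_upwards [eventually_ge_atTop l] with l' hl'
    exact hmono hl (lt_of_lt_of_le hl hl') hl'

end Pool.Agent.H86.IR
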