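import Pool.Agent.H86.IR.Targets3

/-!
# The limit (TE2)
-/

set_option autoImplicit false

open Topology Filter

namespace Pool.Agent.H86.IR

theorem tendsto_const_rpow_inv {c : ℝ} (hc : 0 < c) :
    Tendsto (fun n : ℕ => c ^ (1 / (n : ℝ))) atTop (𝓝 1) := by
  have h1 : Tendsto (fun n : ℕ => 1 / (n : ℝ)) atTop (𝓝 0) := tendsto_one_div_atTop_nhds_zero_nat
  have h2 : Tendsto (fun x : ℝ => c ^ x) (𝓝 0) (𝓝 (c ^ (0 : ℝ))) :=
    (Real.continuousAt_const_rpow hc.ne').tendsto
  rw [Real.rpow_zero] at h2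
  exact h2.comp h1

theorem te2_eq {c y : ℝ} (hc : 0 < c) (hy : 0 < y) {n : ℕ} (hn : 0 < n) :
    (c * y ^ n) ^ (1 / (n : ℝ)) = c ^ (1 / (n : ℝ)) * y := by
  rw [Real.mul_rpow hc.le (by positivity), ← Real.rpow_natCast, ← Real.rpow_mul hy.le,
    mul_one_div_cancel (by positivity), Real.rpow_one]

theorem te2 : T_TE2 := by
  intro M hM
  have hpi := Real.pi_pos
  have key : ∀ c : ℝ, 0 < c → Tendsto (fun n : ℕ => c ^ (1 / (n : ℝ)) * (4 / Real.pi)) atTop
      (𝓝 (4 / Real.pi)) := by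
    intro c hc
    have := (tendsto_const_rpow_inv hc).mul_const (4 / Real.pi)
    rwa [one_mul] at this
  have e : ∀ c : ℝ, 0 < c → ∀ n : ℕ, 2 ≤ n →
      n * (c * (4 / (Real.pi * n)) ^ n) ^ (1 / (n : ℝ)) = c ^ (1 / (n : ℝ)) * (4 / Real.pi) := by
    intro c hc n hn
    have hn' : (0 : ℝ) < n := by positivity
    rw [te2_eq hc (by positivity) (by omega)]
    field_simp
  refine tendsto_of_tendsto_of_tendsto_of_le_of_le' (key (Real.pi ^ 2) (by positivity))
    (key (10 ^ 5) (by positivity)) ?_ ?_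
  · filter_upwards [eventually_ge_atTop 2] with n hn
    rw [← e _ (by positivity) n hn]
    have hn' : (0 : ℝ) < n := by positivity
    exact mul_le_mul_of_nonneg_left (Real.rpow_le_rpow (by positivity) (hM n hn).1
      (by positivity)) hn'.le
  · filter_upwards [eventually_ge_atTop 2] with n hn
    rw [← e _ (by positivity) n hn]
    have hn' : (0 : ℝ) < n := by positivity
    exact mul_le_mul_of_nonneg_left (Real.rpow_le_rpow
      ((by positivity : (0 : ℝ) ≤ Real.pi ^ 2 * (4 / (Real.pi * n)) ^ n).trans (hM n hn).1)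
      (hM n hn).2 (by positivity)) hn'.le

end Pool.Agent.H86.IR
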