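import Pool.Agent.H94.IR.AA
import Pool.Agent.H74.IR.BB
import Pool.Agent.H86.IR.C1
import Pool.Agent.H74.IR.C2A
import Pool.Agent.H13.IR.C2B
import Pool.Agent.H49.IR.CC
import Pool.Agent.H12.IR.CH
import Pool.Agent.H69.IR.CIR
import Pool.Agent.H48.IR.CRX
import Pool.Agent.H33.IR.EIB
import Pool.Agent.H59.IR.EP
import Pool.Agent.H86.IR.ES
import Pool.Agent.H69.IR.ETA
import Pool.Agent.H21.IR.EUL
import Pool.Agent.H69.IR.GEN
import Pool.Agent.H21.IR.GIR
import Pool.Agent.H86.IR.HPL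
import Pool.Agent.H49.IR.KI
import Pool.Agent.H47.IR.KX
import Pool.Agent.H94.IR.MC
import Pool.Agent.H31.IR.MH
import Pool.Agent.H59.IR.MKG
import Pool.Agent.H31.IR.MM
import Pool.Agent.H31.IR.MOB
import Pool.Agent.H19.IR.MPL
import Pool.Agent.H86.IR.PHI
import Pool.Agent.H12.IR.PR
import Pool.Agent.H47.IR.PSD
import Pool.Agent.H48.IR.PSI
import Pool.Agent.H47.IR.REF
import Pool.Agent.H39.IR.RHO
import Pool.Agent.H21.IR.SRT
import Pool.Agent.H21.IR.STR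
import Pool.Agent.H33.IR.UPP
import Pool.Agent.H39.IR.WK
import Pool.Agent.H33.IR.X0
import Pool.Agent.H33.IR.YB
import Pool.Agent.H19.IR.ZB
import Pool.Agent.H19.IR.EN
import Pool.Agent.H54.IR.LAG
import Pool.Agent.H86.IR.LO2
import Pool.Agent.H86.IR.TE2
import Pool.Agent.H86.IR.FS
import Pool.Agent.H42.IR.IP
import Pool.Agent.H50.IR.MK
import Pool.Agent.H87.IR.ABL
import Pool.Agent.H87.IR.NUM

/-!
# MP_c11efe_an: assembly of the modules
-/

set_option autoImplicit false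

namespace Pool.Agent.H86.IR.All

open Pool.Agent.H86.IR

theorem ip : T_IP := Pool.Agent.H42.IR.ip
theorem abl : T_ABL := Pool.Agent.H87.IR.abl
theorem aa : T_AA := Pool.Agent.H94.IR.aa fs ip
theorem bb : T_BB := Pool.Agent.H86.IR.bb fs ip
theorem cc : T_CC := Pool.Agent.H49.IR.cc Pool.Agent.H12.IR.pr ip
theorem wk : T_WK := Pool.Agent.H39.IR.wk Pool.Agent.H12.IR.ch Pool.Agent.H48.IR.psi
theorem en : T_EN := Pool.Agent.H86.IR.en aa bb cc wk
theorem mk : T_MK := Pool.Agent.H50.IR.mk Pool.Agent.H94.IR.mc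
theorem mm : T_MM := Pool.Agent.H31.IR.mm Pool.Agent.H31.IR.mh
theorem mob : T_MOB := Pool.Agent.H31.IR.mob Pool.Agent.H94.IR.mc mk mm
theorem es : T_ES := Pool.Agent.H86.IR.es en Pool.Agent.H59.IR.ep mob
theorem srt : T_SRT := Pool.Agent.H21.IR.srt es
theorem rho : T_RHO := Pool.Agent.H39.IR.rho Pool.Agent.H54.IR.lag
theorem cir : T_CIR := Pool.Agent.H86.IR.cir rho
theorem crx : T_CRX := Pool.Agent.H48.IR.crx cir Pool.Agent.H47.IR.ref
theorem eta_ : T_ETA := Pool.Agent.H86.IR.eta_ Pool.Agent.H21.IR.eul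
theorem yb : T_YB := Pool.Agent.H33.IR.yb abl eta_
theorem zb : T_ZB := Pool.Agent.H86.IR.zb abl Pool.Agent.H21.IR.eul
theorem phi : T_PHI := Pool.Agent.H86.IR.phi Pool.Agent.H47.IR.psd
theorem x0 : T_X0 := Pool.Agent.H33.IR.x0 phi
theorem ki : T_KI := Pool.Agent.H49.IR.ki crx yb zb x0
theorem kx : T_KX := Pool.Agent.H47.IR.kx ki
theorem eib : T_EIB := Pool.Agent.H33.IR.eib
theorem c1 : T_C1 := Pool.Agent.H86.IR.c1 eib
theorem c2a : T_C2A := Pool.Agent.H86.IR.c2a eib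
theorem c2b : T_C2B := Pool.Agent.H86.IR.c2b eib kx
theorem num : T_NUM := Pool.Agent.H87.IR.num eib c1 c2a c2b
theorem upp : T_UPP := Pool.Agent.H33.IR.upp srt num
theorem gen : T_GEN := Pool.Agent.H86.IR.gen upp
theorem hpl : T_HPL := Pool.Agent.H86.IR.hpl Pool.Agent.H59.IR.mkg
theorem str : T_STR := Pool.Agent.H21.IR.str Pool.Agent.H59.IR.mkg
theorem lo2 : T_LO2 := Pool.Agent.H86.IR.lo2 hpl str
theorem gir : T_GIR := Pool.Agent.H21.IR.gir Pool.Agent.H86.IR.mpl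

end Pool.Agent.H86.IR.All
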