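import Mathlib

/-!
# Products of inner radii with poles on a segment (MP_c11efe_an): definitions

The extended complex plane is `OnePoint ℂ`.
-/

set_option autoImplicit false

open Complex Topology Filter InnerProductSpace
open scoped OnePoint

namespace Pool.Agent.H86.IR

/-- the inversion `w ↦ 1 / w` from the plane to the extended plane -/
noncomputable def inv1 (w : ℂ) : OnePoint ℂ := if w = 0 then ∞ else ((w⁻¹ : ℂ) : OnePoint ℂ)

/-- `g` is harmonic at the point `p` of the extended complex plane; at `∞` this means that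
`w ↦ g (1 / w)` is harmonic at `0` -/
def HarmS (g : OnePoint ℂ → ℝ) (p : OnePoint ℂ) : Prop :=
  (∃ z : ℂ, p = (z : OnePoint ℂ) ∧ HarmonicAt (fun w : ℂ => g (w : OnePoint ℂ)) z) ∨
    (p = ∞ ∧ HarmonicAt (fun w : ℂ => g (inv1 w)) 0)

/-- `g` is the classical Green function of `B` with pole at the finite point `a`: it is harmonic
in `B ∖ {a}`, has a logarithmic pole at `a` and tends to `0` at every boundary point of `B` -/
structure IsGreen (B : Set (OnePoint ℂ)) (a : ℂ) (g : OnePoint ℂ → ℝ) : Prop where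
  harm : ∀ p ∈ B, p ≠ (a : OnePoint ℂ) → HarmS g p
  pole : ∃ H : ℂ → ℝ, HarmonicAt H a ∧
    ∀ᶠ z in 𝓝[≠] a, g ((z : ℂ) : OnePoint ℂ) = H z - Real.log ‖z - a‖
  bdry : ∀ p ∈ frontier B, Tendsto g (𝓝[B] p) (𝓝 0)

/-- `r` is the inner radius of `B` at `a`: `r = exp (lim (g z + log |z - a|))`, where `g` is the
classical Green function -/
def HasIR (B : Set (OnePoint ℂ)) (a : ℂ) (r : ℝ) : Prop :=
  0 < r ∧ ∃ g : OnePoint ℂ → ℝ, IsGreen B a g ∧
    Tendsto (fun z : ℂ => g (z : OnePoint ℂ) + Real.log ‖z - a‖) (𝓝[≠] a) (𝓝 (Real.log r))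

/-- `r` is the supremum of the inner radii at `a` of the subdomains of `B` which have a classical
Green function -/
def GenIR (B : Set (OnePoint ℂ)) (a : ℂ) (r : ℝ) : Prop :=
  IsLUB {ρ : ℝ | ∃ D ⊆ B, IsOpen D ∧ IsConnected D ∧ (a : OnePoint ℂ) ∈ D ∧ HasIR D a ρ} r

/-- `n` pairwise disjoint domains `B k` of the extended plane with points `a k ∈ B k ∩ [-1, 1]` -/
structure Adm (n : ℕ) (B : Fin n → Set (OnePoint ℂ)) (a : Fin n → ℂ) : Prop where
  op : ∀ k, IsOpen (B k) ∧ IsConnected (B k)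
  dis : Pairwise fun j k => Disjoint (B j) (B k)
  mem : ∀ k, (a k : OnePoint ℂ) ∈ B k
  seg : ∀ k, (a k).im = 0 ∧ |(a k).re| ≤ 1

/-- the values of the product of the inner radii -/
def Prods (n : ℕ) : Set ℝ :=
  {P | ∃ (B : Fin n → Set (OnePoint ℂ)) (a : Fin n → ℂ) (r : Fin n → ℝ), Adm n B a ∧
    (∀ k, HasIR (B k) (a k) (r k)) ∧ P = ∏ k, r k}

end Pool.Agent.H86.IR
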