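import Pool.Agent.H86.IR.Targets2

/-!
# Half-planes (HPL)
-/

set_option autoImplicit false

open Complex Topology Filter InnerProductSpace
open scoped OnePoint

namespace Pool.Agent.H86.IR

theorem harmonicAt_log_norm_sub (c z : ℂ) (h : z ≠ c) :
    HarmonicAt (fun w : ℂ => Real.log ‖w - c‖) z :=
  AnalyticAt.harmonicAt_log_norm (by fun_prop) (sub_ne_zero.2 h)

theorem hpl_tendsto (a b : ℂ) :
    Tendsto (fun z : ℂ => Real.log ‖z - b‖ - Real.log ‖z - a‖) (cocompact ℂ) (𝓝 0) := by
  have h1 : Tendsto (fun z : ℂ => (z - b) / (z - a)) (cocompact ℂ) (𝓝 1) := by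
    have h2 : Tendsto (fun z : ℂ => 1 + (a - b) / (z - a)) (cocompact ℂ) (𝓝 (1 + 0)) := by
      refine tendsto_const_nhds.add ?_
      have h3 : Tendsto (fun z : ℂ => z - a) (cocompact ℂ) (cocompact ℂ) := by
        have := (Homeomorph.addRight (-a)).isClosedEmbedding.tendsto_cocompact
        simpa [sub_eq_add_neg] using this
      have h4 : Tendsto (fun z : ℂ => (z - a)⁻¹) (cocompact ℂ) (𝓝 0) := by
        rw [← Metric.cobounded_eq_cocompact] at h3 ⊢
        exact tendsto_inv₀_cobounded.comp h3
      have := h4.const_mul (a - b)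
      rw [mul_zero] at this
      simpa [div_eq_mul_inv] using this
    rw [add_zero] at h2
    refine h2.congr' ?_
    have : ∀ᶠ z : ℂ in cocompact ℂ, z ≠ a := by
      have := (isCompact_singleton (x := a)).compl_mem_cocompact
      filter_upwards [this] with z hz
      simpa using hz
    filter_upwards [this] with z hz
    have : z - a ≠ 0 := sub_ne_zero.2 hz
    field_simp
    ring
  have h5 := (Real.continuousAt_log (x := ‖(1 : ℂ)‖) (by simp)).tendsto.comp h1.norm
  rw [norm_one, Real.log_one] at h5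
  refine h5.congr' ?_
  have : ∀ᶠ z : ℂ in cocompact ℂ, z ≠ a ∧ z ≠ b := by
    have h6 := (isCompact_singleton (x := a)).compl_mem_cocompact
    have h7 := (isCompact_singleton (x := b)).compl_mem_cocompact
    filter_upwards [h6, h7] with z hz hz'
    exact ⟨by simpa using hz, by simpa using hz'⟩
  filter_upwards [this] with z hz
  simp only [Function.comp_apply, norm_div]
  rw [Real.log_div (norm_ne_zero_iff.2 (sub_ne_zero.2 hz.2))
    (norm_ne_zero_iff.2 (sub_ne_zero.2 hz.1))]

theorem hpl_aux (hMKG : T_MKG) (S : Set ℂ) (a c : ℝ) (hac : a ≠ c) (hS : IsOpen S)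
    (haS : (a : ℂ) ∈ S) (hb : ((2 * c - a : ℝ) : ℂ) ∉ S)
    (hfr : ∀ z ∈ frontier S, z.re = c) : HasIR (fin S) a (2 * |c - a|) := by
  have hb' : (a : ℂ) ≠ ((2 * c - a : ℝ) : ℂ) := by
    intro h
    rw [Complex.ofReal_inj] at h
    apply hac
    linarith
  refine hMKG S a (fun z => Real.log ‖z - ((2 * c - a : ℝ) : ℂ)‖ - Real.log ‖z - a‖)
    (fun z => Real.log ‖z - ((2 * c - a : ℝ) : ℂ)‖) (2 * |c - a|) hS haS ?_ ?_ ?_ ?_ ?_ ?_ ?_
  · have : 0 < |c - a| := abs_pos.2 (sub_ne_zero.2 (Ne.symm hac))
    positivity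
  · intro z hz hza
    exact (harmonicAt_log_norm_sub _ z (fun h => hb (by rw [← h]; exact hz))).sub
      (harmonicAt_log_norm_sub _ z hza)
  · exact harmonicAt_log_norm_sub _ _ hb'
  · congr 1
    rw [← Complex.ofReal_sub, Complex.norm_real, Real.norm_eq_abs,
      show a - (2 * c - a) = -(2 * (c - a)) by ring, abs_neg, abs_mul, abs_two]
  · exact Eventually.of_forall fun z => rfl
  · intro z hz
    have hzc := hfr z hz
    have e0 : ‖z - ((2 * c - a : ℝ) : ℂ)‖ = ‖z - a‖ := by
      rw [← Real.sqrt_sq (norm_nonneg (z - a)), ← Real.sqrt_sq (norm_nonneg (z - _)),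
        Complex.sq_norm, Complex.sq_norm, Complex.normSq_apply, Complex.normSq_apply]
      congr 1
      simp only [Complex.sub_re, Complex.sub_im, Complex.ofReal_re, Complex.ofReal_im, hzc]
      ring
    have hne : z - a ≠ 0 := by
      intro h
      rw [sub_eq_zero] at h
      rw [h, Complex.ofReal_re] at hzc
      exact hac hzc
    have hne' : z - ((2 * c - a : ℝ) : ℂ) ≠ 0 := by
      rw [← norm_ne_zero_iff, e0, norm_ne_zero_iff]
      exact hne
    have hcont : ContinuousAt (fun z : ℂ => Real.log ‖z - ((2 * c - a : ℝ) : ℂ)‖ -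
        Real.log ‖z - a‖) z :=
      ((by fun_prop : ContinuousAt (fun z : ℂ => ‖z - ((2 * c - a : ℝ) : ℂ)‖) z).log
        (norm_ne_zero_iff.2 hne')).sub
        ((by fun_prop : ContinuousAt (fun z : ℂ => ‖z - a‖) z).log (norm_ne_zero_iff.2 hne))
    have := hcont.tendsto
    simp only [e0, sub_self] at this
    exact this.mono_left nhdsWithin_le_nhds
  · exact (hpl_tendsto _ _).mono_left inf_le_left

theorem hpl (hMKG : T_MKG) : T_HPL := by
  intro a c
  constructor
  · intro hac
    have := hpl_aux hMKG {z : ℂ | z.re < c} a c hac.ne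
      (isOpen_lt Complex.continuous_re continuous_const) (by simpa using hac)
      (by
        show ¬ ((2 * c - a : ℝ) : ℂ).re < c
        rw [Complex.ofReal_re]
        linarith)
      (fun z hz => frontier_lt_subset_eq Complex.continuous_re continuous_const hz)
    rwa [abs_of_pos (by linarith)] at this
  · intro hac
    have := hpl_aux hMKG {z : ℂ | c < z.re} a c hac.ne'
      (isOpen_lt continuous_const Complex.continuous_re) (by simpa using hac)
      (by
        show ¬ c < ((2 * c - a : ℝ) : ℂ).re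
        rw [Complex.ofReal_re]
        linarith)
      (fun z hz => (frontier_lt_subset_eq continuous_const Complex.continuous_re hz).symm)
    rwa [abs_of_neg (by linarith), neg_sub] at this

end Pool.Agent.H86.IR
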