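import Pool.Agent.H86.IR.Defs

/-!
# Products of inner radii: targets, part 1 (potential theory)
-/

set_option autoImplicit false

open Complex Topology Filter InnerProductSpace MeasureTheory Laplacian
open scoped OnePoint

namespace Pool.Agent.H86.IR

/-! ## Plane -/

/-- CH: the Laplacian of a composition -/
def T_CH : Prop := ∀ (G : ℂ → ℝ) (z : ℂ) (ψ : ℝ → ℝ), ContDiffAt ℝ 2 G z → ContDiff ℝ 2 ψ →
  (Δ (fun w => ψ (G w))) z = deriv (deriv ψ) (G z) *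
    ((fderiv ℝ G z 1) ^ 2 + (fderiv ℝ G z I) ^ 2) + deriv ψ (G z) * (Δ G) z

/-- PR: the Laplacian of a product -/
def T_PR : Prop := ∀ (f g : ℂ → ℝ) (z : ℂ), ContDiffAt ℝ 2 f z → ContDiffAt ℝ 2 g z →
  (Δ (fun w => f w * g w)) z = f z * (Δ g) z + g z * (Δ f) z +
    2 * (fderiv ℝ f z 1 * fderiv ℝ g z 1 + fderiv ℝ f z I * fderiv ℝ g z I)

/-- IP: Green's formula -/
def T_IP : Prop := ∀ f g : ℂ → ℝ, ContDiff ℝ 2 f → HasCompactSupport f → ContDiff ℝ 2 g →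
  ∫ z, f z * (Δ g) z = ∫ z, g z * (Δ f) z

/-- FS: the fundamental solution -/
def T_FS : Prop := ∀ f : ℂ → ℝ, ContDiff ℝ 2 f → HasCompactSupport f → ∀ c : ℂ,
  Integrable (fun z => Real.log ‖z - c‖ * (Δ f) z) ∧
    ∫ z, Real.log ‖z - c‖ * (Δ f) z = 2 * Real.pi * f c

/-- AA: `w` is `log |z - b|` outside of the compact set `K`; integration of harmonic functions -/
def T_AA : Prop := ∀ (D K : Set ℂ) (b : ℂ) (w f : ℂ → ℝ), IsOpen D → IsCompact K → K ⊆ D →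
  b ∈ K → ContDiff ℝ 2 w → (∀ z, z ∉ K → w z = Real.log ‖z - b‖) →
  (∀ z ∈ D, HarmonicAt f z) → ∫ z, f z * (Δ w) z = 2 * Real.pi * f b

/-- BB: integration of `log |z - b|` -/
def T_BB : Prop := ∀ (K : Set ℂ) (b : ℂ) (w : ℂ → ℝ), IsCompact K → b ∈ K →
  ContDiff ℝ 2 w → (∀ z, z ∉ K → w z = Real.log ‖z - b‖) →
  Integrable (fun z => Real.log ‖z - b‖ * (Δ w) z) ∧
    ∫ z, Real.log ‖z - b‖ * (Δ w) z = 2 * Real.pi * w b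

/-- CC: the energy is nonnegative -/
def T_CC : Prop := ∀ (W : ℂ → ℝ) (K : Set ℂ), ContDiff ℝ 2 W → IsCompact K →
  (∀ z, z ∉ K → (Δ W) z = 0) → Tendsto W (cocompact ℂ) (𝓝 0) → ∫ z, W z * (Δ W) z ≤ 0

/-- PSI: a convex truncation -/
def T_PSI : Prop := ∀ δ : ℝ, 0 < δ → ∃ (ψ : ℝ → ℝ) (c : ℝ), ContDiff ℝ 2 ψ ∧
  (∀ s, s ≤ δ → ψ s = 0) ∧ (∀ s, 2 * δ ≤ s → ψ s = s - c) ∧ 0 ≤ c ∧ c ≤ 2 * δ ∧
  (∀ s, 0 ≤ ψ s) ∧ (∀ s, 0 ≤ deriv (deriv ψ) s)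

/-- the data of a Green function of a plane domain, with the value `γ` of `G + log |z - b|` -/
structure PG (D : Set ℂ) (b : ℂ) (G : ℂ → ℝ) (γ : ℝ) : Prop where
  op : IsOpen D
  mem : b ∈ D
  harm : ∀ w ∈ D, w ≠ b → HarmonicAt G w
  pole : ∃ H : ℂ → ℝ, HarmonicAt H b ∧ H b = γ ∧
    ∀ᶠ w in 𝓝[≠] b, G w = H w - Real.log ‖w - b‖
  cpt : ∀ δ : ℝ, 0 < δ → IsCompact {w | w ∈ D ∧ (w = b ∨ δ ≤ G w)}

/-- WK: the smoothed potential -/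
def T_WK : Prop := ∀ (D : Set ℂ) (b : ℂ) (G : ℂ → ℝ) (γ : ℝ), PG D b G γ → ∀ δ : ℝ, 0 < δ →
  ∃ (w : ℂ → ℝ) (K : Set ℂ), ContDiff ℝ 2 w ∧ IsCompact K ∧ K ⊆ D ∧ b ∈ K ∧
    (∀ z, z ∉ K → w z = Real.log ‖z - b‖) ∧ (∀ z, 0 ≤ (Δ w) z) ∧
    (∀ z, z ≠ b → Real.log ‖z - b‖ ≤ w z) ∧ γ - 2 * δ ≤ w b

/-- EN: the energy inequality in the plane -/
def T_EN : Prop := ∀ (n : ℕ) (D : Fin n → Set ℂ) (b : Fin n → ℂ) (G : Fin n → ℂ → ℝ)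
  (γ : Fin n → ℝ), (∀ k, PG (D k) (b k) (G k) (γ k)) →
  (Pairwise fun j k => Disjoint (D j) (D k)) → ∀ α : Fin n → ℝ, ∑ k, α k = 0 →
  ∑ k, α k ^ 2 * γ k + ∑ k, ∑ j, α k * α j * Real.log ‖b k - b j‖ ≤ 0

/-! ## Sphere -/

/-- EP: an omitted point -/
def T_EP : Prop := ∀ (n : ℕ) (B : Fin n → Set (OnePoint ℂ)) (a : Fin n → ℂ), 2 ≤ n →
  (∀ k, IsOpen (B k)) → (Pairwise fun j k => Disjoint (B j) (B k)) →
  (∀ k, (a k : OnePoint ℂ) ∈ B k) → ∃ p : ℂ, ∀ k, (p : OnePoint ℂ) ∉ B k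

/-- the map `w ↦ p + 1 / w` -/
noncomputable def mob (p w : ℂ) : OnePoint ℂ :=
  if w = 0 then ∞ else ((p + w⁻¹ : ℂ) : OnePoint ℂ)

/-- MC: continuity -/
def T_MC : Prop := ∀ p : ℂ, Continuous (mob p)

/-- MK: compactness of the superlevel sets -/
def T_MK : Prop := ∀ (B : Set (OnePoint ℂ)) (a p : ℂ) (g : OnePoint ℂ → ℝ), IsOpen B →
  (a : OnePoint ℂ) ∈ B → (p : OnePoint ℂ) ∉ B → IsGreen B a g → ∀ δ : ℝ, 0 < δ →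
  IsCompact {w : ℂ | mob p w ∈ B ∧ (w = (a - p)⁻¹ ∨ δ ≤ g (mob p w))}

/-- MH: a harmonic function of a holomorphic function is harmonic -/
def T_MH : Prop := ∀ (f : ℂ → ℝ) (φ : ℂ → ℂ) (z : ℂ), AnalyticAt ℂ φ z →
  HarmonicAt f (φ z) → HarmonicAt (fun w => f (φ w)) z

/-- MM: harmonicity and pole in the new variable -/
def T_MM : Prop := ∀ (B : Set (OnePoint ℂ)) (a p : ℂ) (g : OnePoint ℂ → ℝ) (γ : ℝ),
  IsOpen B → (a : OnePoint ℂ) ∈ B → (p : OnePoint ℂ) ∉ B → IsGreen B a g →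
  Tendsto (fun z : ℂ => g (z : OnePoint ℂ) + Real.log ‖z - a‖) (𝓝[≠] a) (𝓝 γ) →
  (∀ w : ℂ, mob p w ∈ B → w ≠ (a - p)⁻¹ → HarmonicAt (fun w => g (mob p w)) w) ∧
  ∃ H : ℂ → ℝ, HarmonicAt H (a - p)⁻¹ ∧ H (a - p)⁻¹ = γ - 2 * Real.log ‖a - p‖ ∧
    ∀ᶠ w in 𝓝[≠] (a - p)⁻¹, g (mob p w) = H w - Real.log ‖w - (a - p)⁻¹‖

/-- MOB: the plane data of a Green function of a domain of the sphere -/
def T_MOB : Prop := ∀ (B : Set (OnePoint ℂ)) (a p : ℂ) (g : OnePoint ℂ → ℝ) (γ : ℝ),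
  IsOpen B → (a : OnePoint ℂ) ∈ B → (p : OnePoint ℂ) ∉ B → IsGreen B a g →
  Tendsto (fun z : ℂ => g (z : OnePoint ℂ) + Real.log ‖z - a‖) (𝓝[≠] a) (𝓝 γ) →
  PG {w : ℂ | mob p w ∈ B} (a - p)⁻¹ (fun w => g (mob p w)) (γ - 2 * Real.log ‖a - p‖)

/-- ES: the energy inequality on the sphere -/
def T_ES : Prop := ∀ (n : ℕ) (B : Fin n → Set (OnePoint ℂ)) (a : Fin n → ℂ) (r : Fin n → ℝ),
  2 ≤ n → (∀ k, IsOpen (B k)) → (Pairwise fun j k => Disjoint (B j) (B k)) →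
  (∀ k, (a k : OnePoint ℂ) ∈ B k) → (∀ k, HasIR (B k) (a k) (r k)) →
  ∀ α : Fin n → ℝ, ∑ k, α k = 0 →
  ∑ k, α k ^ 2 * Real.log (r k) + ∑ k, ∑ j, α k * α j * Real.log ‖a k - a j‖ ≤ 0

/-- the energy inequality for increasing real poles `x 0 < … < x (n - 1)` -/
def EI (n : ℕ) (x γ : ℕ → ℝ) : Prop := (∀ i j, i < j → j < n → x i < x j) ∧
  ∀ α : ℕ → ℝ, ∑ k ∈ Finset.range n, α k = 0 →
    ∑ k ∈ Finset.range n, α k ^ 2 * γ k + ∑ k ∈ Finset.range n, ∑ j ∈ Finset.range n,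
      α k * α j * Real.log |x k - x j| ≤ 0

/-- SRT: sorting the poles -/
def T_SRT : Prop := ∀ (n : ℕ) (B : Fin n → Set (OnePoint ℂ)) (a : Fin n → ℂ) (r : Fin n → ℝ),
  2 ≤ n → Adm n B a → (∀ k, HasIR (B k) (a k) (r k)) →
  ∃ x γ : ℕ → ℝ, EI n x γ ∧ x (n - 1) - x 0 ≤ 2 ∧
    ∑ k ∈ Finset.range n, γ k = Real.log (∏ k, r k)

end Pool.Agent.H86.IR
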