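import Pool.Agent.H86.IR.Targets1

/-!
# Products of inner radii: targets, part 2 (real analysis, lower bound)
-/

set_option autoImplicit false

open Complex Topology Filter InnerProductSpace
open scoped OnePoint

namespace Pool.Agent.H86.IR

/-! ## Alternating points on the circle -/

/-- LAG: Lagrange interpolation -/
def T_LAG : Prop := ∀ (m : ℕ) (z w : ℕ → ℂ), 1 ≤ m → (∀ i < m, z i ≠ 0) →
  (∀ i < m, ∀ j < m, i ≠ j → z i ≠ z j) →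
  ∑ i ∈ Finset.range m, (∏ j ∈ Finset.range m, (z i - w j)) /
      (z i * ∏ j ∈ (Finset.range m).erase i, (z i - z j)) =
    1 - (∏ j ∈ Finset.range m, w j) / ∏ j ∈ Finset.range m, z j

/-- RHO: the sum of the residues -/
def T_RHO : Prop := ∀ (m : ℕ) (x y : ℕ → ℝ), 1 ≤ m → (∀ i < m, x i < y i) →
  (∀ i, i + 1 < m → y i < x (i + 1)) → y (m - 1) < x 0 + 2 * Real.pi →
  ∑ i ∈ Finset.range m, (∏ j ∈ Finset.range m, |2 * Real.sin ((x i - y j) / 2)|) /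
      (∏ j ∈ (Finset.range m).erase i, |2 * Real.sin ((x i - x j) / 2)|) ≤ 2

/-- CIR: alternating charges on the circle -/
def T_CIR : Prop := ∀ (m : ℕ) (s : ℕ → ℝ), 1 ≤ m → (∀ i j, i < j → j < 2 * m → s i < s j) →
  s (2 * m - 1) < s 0 + 2 * Real.pi →
  -(∑ i ∈ Finset.range (2 * m), ∑ j ∈ Finset.range (2 * m), (-1) ^ i * (-1) ^ j *
    Real.log |2 * Real.sin ((s i - s j) / 2)|) ≤ 2 * m * Real.log (2 / m)

/-- the weights `1/2, -1, 1, …, ±1, ∓1/2` -/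
noncomputable def wt (N k : ℕ) : ℝ :=
  if k = 0 then 1 / 2 else if k = N then (-1) ^ N / 2 else (-1) ^ k

/-- REF: reflected sequences -/
def T_REF : Prop := ∀ (N : ℕ) (t : ℕ → ℝ) (f : ℝ → ℝ), 1 ≤ N → t 0 = 0 → t N = Real.pi →
  f (2 * Real.pi) = f 0 →
  ∑ i ∈ Finset.range (2 * N),
      (-1) ^ i * f (if i ≤ N then t i else 2 * Real.pi - t (2 * N - i)) =
    ∑ k ∈ Finset.range (N + 1), wt N k * (f (t k) + f (2 * Real.pi - t k))

/-- `0 = t 0 < t 1 < … < t N = π` -/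
structure TT (N : ℕ) (t : ℕ → ℝ) : Prop where
  pos : 1 ≤ N
  zero : t 0 = 0
  last : t N = Real.pi
  mono : ∀ i j, i < j → j ≤ N → t i < t j

/-- CRX: the circle bound for points of the half circle -/
def T_CRX : Prop := ∀ (N : ℕ) (t : ℕ → ℝ), TT N t →
  -(∑ k ∈ Finset.range (N + 1), ∑ j ∈ Finset.range (N + 1), wt N k * wt N j *
    (Real.log |2 * Real.sin ((t k - t j) / 2)| + Real.log |2 * Real.sin ((t k + t j) / 2)|)) ≤
    N * Real.log (2 / N)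

/-- ABL: Abel summation -/
def T_ABL : Prop := ∀ (N : ℕ) (f : ℕ → ℕ → ℝ), 1 ≤ N →
  ((∀ a < N, ∀ b < N, 0 ≤ f a b - f (a + 1) b - f a (b + 1) + f (a + 1) (b + 1)) ∨
    (∀ a < N, ∀ b < N, f a b - f (a + 1) b - f a (b + 1) + f (a + 1) (b + 1) ≤ 0)) →
  |∑ k ∈ Finset.range (N + 1), ∑ j ∈ Finset.range (N + 1), wt N k * wt N j * f k j| ≤
    |f 0 0 - f N 0 - f 0 N + f N N| / 4

/-- `log (sin (t / 2) / (t / 2))`, with the value `0` for `t = 0` -/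
noncomputable def eta (t : ℝ) : ℝ := Real.log (2 * Real.sin (t / 2) / t)

/-- `log (2 sin (t / 2) / (t (2 π - t)))`, extended by continuity to `t = 0` and `t = 2 π` -/
noncomputable def zet (t : ℝ) : ℝ := if t = 0 ∨ t = 2 * Real.pi then -Real.log (2 * Real.pi) else
  Real.log (2 * Real.sin (t / 2) / (t * (2 * Real.pi - t)))

/-- EUL: concavity -/
def T_EUL : Prop := ConcaveOn ℝ (Set.Icc 0 (2 * Real.pi)) zet

/-- ETA: concavity -/
def T_ETA : Prop := ConcaveOn ℝ (Set.Ico 0 (2 * Real.pi)) eta ∧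
  ∀ t ∈ Set.Ico 0 (2 * Real.pi), eta t ≤ 0

/-- YB: the bound for the kernel `eta` -/
def T_YB : Prop := ∀ (N : ℕ) (t : ℕ → ℝ), TT N t →
  |∑ k ∈ Finset.range (N + 1), ∑ j ∈ Finset.range (N + 1), wt N k * wt N j * eta (|t k - t j|)| ≤
    Real.log (Real.pi / 2) / 2

/-- ZB: the bound for the kernel `zet` -/
def T_ZB : Prop := ∀ (N : ℕ) (t : ℕ → ℝ), TT N t →
  |∑ k ∈ Finset.range (N + 1), ∑ j ∈ Finset.range (N + 1), wt N k * wt N j * zet (t k + t j)| ≤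
    Real.log (4 / Real.pi) / 2

/-- PSD: the Cauchy kernel -/
def T_PSD : Prop := ∀ (s : Finset ℕ) (x α : ℕ → ℝ), (∀ k ∈ s, 0 < x k) →
  0 ≤ ∑ k ∈ s, ∑ j ∈ s, α k * α j / (x k + x j)

/-- PHI: the logarithmic kernel -/
def T_PHI : Prop :=
  (∀ (s : Finset ℕ) (x α : ℕ → ℝ) (l : ℝ), (∀ k ∈ s, 0 < x k) → 0 ≤ l →
    ∑ k ∈ s, ∑ j ∈ s, α k * α j * Real.log (x k + x j) ≤
      ∑ k ∈ s, ∑ j ∈ s, α k * α j * Real.log (x k + x j + l)) ∧
  (∀ (s : Finset ℕ) (x α : ℕ → ℝ) (l : ℝ), (∀ k ∈ s, 0 ≤ x k) → 0 < l → ∑ k ∈ s, α k = 0 →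
    ∑ k ∈ s, ∑ j ∈ s, α k * α j * Real.log (x k + x j + l) ≤ 0)

/-- X0: the end of the segment (`Real.log 0 = 0`) -/
def T_X0 : Prop := ∀ (N : ℕ) (t : ℕ → ℝ), 1 ≤ N → t 0 = 0 →
  (∀ i j, i < j → j ≤ N → t i < t j) →
  ∑ k ∈ Finset.range (N + 1), ∑ j ∈ Finset.range (N + 1), wt N k * wt N j *
      Real.log (t k + t j) ≤
    -Real.log (t 1) / 4 + Real.log 3 / 4 + Real.log (4 / 3)

/-- the constant -/
noncomputable def kap : ℝ := Real.log (16 * Real.sqrt 6 / 9)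

/-- KI: the key inequality -/
def T_KI : Prop := ∀ (N : ℕ) (t : ℕ → ℝ), TT N t →
  -(∑ k ∈ Finset.range (N + 1), ∑ j ∈ Finset.range (N + 1), wt N k * wt N j *
    Real.log |t k - t j|) ≤
    N * Real.log (2 / N) - Real.log (t 1 * (Real.pi - t (N - 1))) / 4 + kap

/-- KX: the key inequality, rescaled -/
def T_KX : Prop := ∀ (N : ℕ) (x : ℕ → ℝ), 1 ≤ N → (∀ i j, i < j → j ≤ N → x i < x j) →
  -(∑ k ∈ Finset.range (N + 1), ∑ j ∈ Finset.range (N + 1), wt N k * wt N j *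
    Real.log |x k - x j|) ≤
    N * Real.log (2 / Real.pi) + (N - 1 / 2) * Real.log ((x N - x 0) / N) -
      Real.log ((N * (x 1 - x 0) / (x N - x 0)) * (N * (x N - x (N - 1)) / (x N - x 0))) / 4 + kap

/-! ## Induction -/

/-- omission of the index `m` -/
def skip (m : ℕ) (x : ℕ → ℝ) (k : ℕ) : ℝ := if k < m then x k else x (k + 1)

/-- EIB: two poles, omission of a pole, scaling, reflection -/
def T_EIB : Prop := ∀ (n : ℕ) (x γ : ℕ → ℝ), EI n x γ →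
  (∀ i j, i < j → j < n → γ i + γ j ≤ 2 * Real.log (x j - x i)) ∧
  (∀ m < n, EI (n - 1) (skip m x) (skip m γ) ∧
    ∑ k ∈ Finset.range (n - 1), skip m γ k = ∑ k ∈ Finset.range n, γ k - γ m) ∧
  (∀ l : ℝ, 0 < l → EI n (fun k => l * x k) (fun k => γ k + Real.log l)) ∧
  EI n (fun k => -x (n - 1 - k)) (fun k => γ (n - 1 - k))

/-- the bound for `n` poles -/
def PB (n : ℕ) : Prop := ∀ x γ : ℕ → ℝ, EI n x γ → x (n - 1) - x 0 ≤ 2 →
  ∑ k ∈ Finset.range n, γ k ≤ Real.log (10 ^ 5) + n * Real.log (4 / (Real.pi * n))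

/-- C1: a small radius -/
def T_C1 : Prop := ∀ n : ℕ, 3 ≤ n → PB (n - 1) → ∀ x γ : ℕ → ℝ, EI n x γ →
  x (n - 1) - x 0 ≤ 2 → ∀ m < n, γ m ≤ Real.log (4 / (Real.pi * n)) - 1 →
  ∑ k ∈ Finset.range n, γ k ≤ Real.log (10 ^ 5) + n * Real.log (4 / (Real.pi * n))

/-- C2A: a large gap at the left end -/
def T_C2A : Prop := ∀ n : ℕ, 3 ≤ n → PB (n - 1) → ∀ x γ : ℕ → ℝ, EI n x γ →
  x (n - 1) - x 0 ≤ 2 → (∀ m < n, Real.log (4 / (Real.pi * n)) - 1 ≤ γ m) →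
  8 * (x (n - 1) - x 0) ≤ (n - 1) * (x 1 - x 0) →
  ∑ k ∈ Finset.range n, γ k ≤ Real.log (10 ^ 5) + n * Real.log (4 / (Real.pi * n))

/-- C2B: no large gap at the ends -/
def T_C2B : Prop := ∀ n : ℕ, 3 ≤ n → ∀ x γ : ℕ → ℝ, EI n x γ →
  x (n - 1) - x 0 ≤ 2 → (∀ m < n, Real.log (4 / (Real.pi * n)) - 1 ≤ γ m) →
  (n - 1) * (x 1 - x 0) ≤ 8 * (x (n - 1) - x 0) →
  (n - 1) * (x (n - 1) - x (n - 2)) ≤ 8 * (x (n - 1) - x 0) →
  ∑ k ∈ Finset.range n, γ k ≤ Real.log (10 ^ 5) + n * Real.log (4 / (Real.pi * n))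

/-- NUM: the bound for all `n` -/
def T_NUM : Prop := ∀ n : ℕ, 2 ≤ n → PB n

/-! ## Lower bound and assembly -/

/-- the part of the extended plane which consists of the finite points in `S` -/
def fin (S : Set ℂ) : Set (OnePoint ℂ) := (fun z : ℂ => (z : OnePoint ℂ)) '' S

/-- MKG: from a Green function in the plane to the inner radius -/
def T_MKG : Prop := ∀ (S : Set ℂ) (a : ℂ) (G H : ℂ → ℝ) (r : ℝ), IsOpen S → a ∈ S → 0 < r →
  (∀ z ∈ S, z ≠ a → HarmonicAt G z) → HarmonicAt H a → H a = Real.log r →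
  (∀ᶠ z in 𝓝[≠] a, G z = H z - Real.log ‖z - a‖) →
  (∀ z ∈ frontier S, Tendsto G (𝓝[S] z) (𝓝 0)) → Tendsto G (cocompact ℂ ⊓ 𝓟 S) (𝓝 0) →
  HasIR (fin S) a r

/-- HPL: half-planes -/
def T_HPL : Prop := ∀ a c : ℝ,
  (a < c → HasIR (fin {z : ℂ | z.re < c}) a (2 * (c - a))) ∧
  (c < a → HasIR (fin {z : ℂ | c < z.re}) a (2 * (a - c)))

/-- STR: strips -/
def T_STR : Prop := ∀ a h : ℝ, 0 < h → HasIR (fin {z : ℂ | |z.re - a| < h}) a (4 * h / Real.pi)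

/-- LOW: the configuration with strips and two half-planes -/
def T_LOW : Prop := ∀ n : ℕ, 2 ≤ n →
  Real.pi ^ 2 / 4 * (4 / (Real.pi * (n - 1))) ^ n ∈ Prods n

/-- UPP: the upper bound -/
def T_UPP : Prop := ∀ n : ℕ, 2 ≤ n → ∀ P ∈ Prods n, P ≤ 10 ^ 5 * (4 / (Real.pi * n)) ^ n

/-- GEN: the upper bound for generalized inner radii -/
def T_GEN : Prop := ∀ (n : ℕ) (B : Fin n → Set (OnePoint ℂ)) (a : Fin n → ℂ) (r : Fin n → ℝ),
  2 ≤ n → Adm n B a → (∀ k, GenIR (B k) (a k) (r k)) →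
  ∏ k, r k ≤ 10 ^ 5 * (4 / (Real.pi * n)) ^ n

/-- MPL: the minimum principle, local form -/
def T_MPL : Prop := ∀ (f : ℂ → ℝ) (z : ℂ), HarmonicAt f z → (∀ᶠ w in 𝓝 z, f z ≤ f w) →
  ∀ᶠ w in 𝓝 z, f w = f z

/-- GIR: the inner radius of a domain with a classical Green function is the supremum of the inner
radii of its subdomains -/
def T_GIR : Prop := ∀ (B : Set (OnePoint ℂ)) (a : ℂ) (r : ℝ), IsOpen B → IsConnected B →
  (a : OnePoint ℂ) ∈ B → (frontier B).Nonempty → HasIR B a r → GenIR B a r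

/-- TEN: the limit -/
def T_TEN : Prop := ∀ M : ℕ → ℝ, (∀ n : ℕ, 2 ≤ n →
    Real.pi ^ 2 / 4 * (4 / (Real.pi * (n - 1))) ^ n ≤ M n ∧
    M n ≤ 10 ^ 5 * (4 / (Real.pi * n)) ^ n) →
  Tendsto (fun n : ℕ => n * (M n) ^ (1 / (n : ℝ))) atTop (𝓝 (4 / Real.pi))

end Pool.Agent.H86.IR
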