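import Pool.Agent.H86.IR.Targets2

/-!
# Products of inner radii: targets, part 3 (better configuration)
-/

set_option autoImplicit false

open Complex Topology Filter InnerProductSpace
open scoped OnePoint

namespace Pool.Agent.H86.IR

/-- LO2: the configuration with strips of width `2 / n` and two half-planes -/
def T_LO2 : Prop := ∀ n : ℕ, 2 ≤ n → Real.pi ^ 2 * (4 / (Real.pi * n)) ^ n ∈ Prods n

/-- TE2: the limit -/
def T_TE2 : Prop := ∀ M : ℕ → ℝ, (∀ n : ℕ, 2 ≤ n →
    Real.pi ^ 2 * (4 / (Real.pi * n)) ^ n ≤ M n ∧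
    M n ≤ 10 ^ 5 * (4 / (Real.pi * n)) ^ n) →
  Tendsto (fun n : ℕ => n * (M n) ^ (1 / (n : ℝ))) atTop (𝓝 (4 / Real.pi))

end Pool.Agent.H86.IR
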